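import Mathlib
import Pool.Agent.H75.HalfDer

/-! A Lie algebra with only trivial half-derivations and transposed Poisson structures whose
indecomposable one-dimensional central extension has non-trivial ones. -/

set_option autoImplicit false

namespace Pool.Agent.Results.MP_d69fce_al.CentralExt

open Pool.Agent.H75.HalfDer

/-- `φ` is a half-derivation for the bracket `b`. -/
def IsHalfDer {M : Type} [AddCommGroup M] [Module ℂ M] (b : M → M → M) (φ : M → M) : Prop :=
  ∀ x y, φ (b x y) = (1 / 2 : ℂ) • (b (φ x) y + b x (φ y))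

/-- `m` is a commutative associative product satisfying the transposed Poisson identity. -/
def IsTP {M : Type} [AddCommGroup M] [Module ℂ M] (b m : M → M → M) : Prop :=
  (∀ x y, m x y = m y x) ∧ (∀ x y z, m (m x y) z = m x (m y z)) ∧
    ∀ x y z, (2 : ℂ) • m z (b x y) = b (m z x) y + b x (m z y)

/-- Some bilinear product that is not zero is a transposed Poisson structure for `b`. -/
def HasTP (M : Type) [AddCommGroup M] [Module ℂ M] (b : M → M → M) : Prop :=
  ∃ m : M →ₗ[ℂ] M →ₗ[ℂ] M, IsTP b (fun x y => m x y) ∧ ∃ x y, m x y ≠ 0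

/-- Some linear map that is not a scalar multiple of the identity is a half-derivation for `b`. -/
def HasHalfDer (M : Type) [AddCommGroup M] [Module ℂ M] (b : M → M → M) : Prop :=
  ∃ φ : M →ₗ[ℂ] M, IsHalfDer b φ ∧ ¬∃ c : ℂ, ∀ x, φ x = c • x

/-- `ω` is a 2-cocycle with values in `ℂ` that is not a coboundary. -/
def IsEssential {M : Type} [LieRing M] [LieAlgebra ℂ M] (ω : M → M → ℂ) : Prop :=
  (∀ x, ω x x = 0) ∧ (∀ x y z, ω ⁅x, y⁆ z + ω ⁅y, z⁆ x + ω ⁅z, x⁆ y = 0) ∧
    ¬∃ f : M →ₗ[ℂ] ℂ, ∀ x y, ω x y = f ⁅x, y⁆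

/-- The bracket of the central extension `M ⊕ ℂ c` given by `ω`. -/
def extBr {M : Type} [LieRing M] (ω : M → M → ℂ) (p q : M × ℂ) : M × ℂ :=
  (⁅p.1, q.1⁆, ω p.1 q.1)

theorem tr_ext (p q : L × ℂ) : tr (extBr (fun x y => om x y) p q) = 0 := by
  simp [extBr, tr_ap, lie_ap, br]; ring

theorem result : ∃ (M : Type) (_ : LieRing M) (_ : LieAlgebra ℂ M) (ω : M →ₗ[ℂ] M →ₗ[ℂ] ℂ),
    FiniteDimensional ℂ M ∧ IsEssential (fun x y => ω x y) ∧
      ¬HasTP M (fun x y => ⁅x, y⁆) ∧ ¬HasHalfDer M (fun x y => ⁅x, y⁆) ∧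
      HasTP (M × ℂ) (extBr fun x y => ω x y) ∧ HasHalfDer (M × ℂ) (extBr fun x y => ω x y) := by
  refine ⟨L, inferInstance, inferInstance, om, inferInstance, ⟨fun x => ?_, fun x y z => ?_, ?_⟩,
    ?_, ?_, ?_, ?_⟩
  · simp only [om_ap]; ring
  · simp [om_ap, lie_ap, br]; ring
  · rintro ⟨f, hf⟩
    have h := hf (ev 6) (ev 4)
    have h0 : ⁅(show L from ev 6), (show L from ev 4)⁆ = 0 := by
      funext k; rw [lie_ap, zero_ap]; fin_cases k <;> simp [br, ev]
    rw [h0, map_zero] at h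
    simp [om_ap, ev] at h
  · rintro ⟨m, ⟨hc, -, ht⟩, x, y, hxy⟩
    have hs : ∀ z, ∃ c : ℂ, ∀ w, m z w = c • w := fun z => by
      obtain ⟨c, hc⟩ := scalar (m z) (fun x y => by
        rw [← ht x y z, smul_smul]; norm_num)
      exact ⟨c, fun w => by rw [hc]; rfl⟩
    choose l hl using hs
    have h0 : l x = 0 := by
      have h1 := congrFun (hc x (ev 0)) 1
      have h2 := congrFun (hc x (ev 1)) 1
      have h3 := congrFun (hc x (ev 1)) 0
      have h4 := congrFun (hc x (ev 0)) 0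
      have h5 := congrFun (hc (ev 0) (ev 1)) 0
      have h6 := congrFun (hc (ev 0) (ev 1)) 1
      simp only [hl, smul_ap, ev, Matrix.cons_val] at h1 h2 h3 h4 h5 h6
      linear_combination h2 - x 1 * h5
    exact hxy (by rw [hl, h0, zero_smul])
  · rintro ⟨φ, hφ, hn⟩
    obtain ⟨c, hc⟩ := scalar φ hφ
    exact hn ⟨c, fun x => by rw [hc]; rfl⟩
  · refine ⟨LinearMap.mk₂ ℂ (fun p q => ((0 : L), tr p * tr q)) (fun _ _ _ => by simp [add_mul])
      (fun _ _ _ => by simp [mul_assoc]) (fun _ _ _ => by simp [mul_add])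
      (fun _ _ _ => by simp [mul_left_comm]), ⟨fun x y => by simp [mul_comm], fun x y z => ?_,
      fun x y z => ?_⟩, (ev 0, 0), (ev 0, 0), ?_⟩
    · simp [tr_ap, zero_ap]
    · simp only [LinearMap.mk₂_apply, tr_ext]
      simp [extBr]
    · simp [tr_ap, ev]
  · refine ⟨LinearMap.prod 0 tr, fun x y => ?_, ?_⟩
    · have := tr_ext x y
      simp only [extBr] at this
      simp [extBr, this]
    · rintro ⟨c, hc⟩
      have h := congrArg Prod.snd (hc (ev 0, 0))
      simp [tr_ap, ev] at h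

end Pool.Agent.Results.MP_d69fce_al.CentralExt
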